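import Mathlib

namespace Pool.Agent.Results.MP_e24518_an.Control

open Set Filter Topology

variable {E : Type*} [NormedAddCommGroup E] [Lattice E] [HasSolidNorm E] [IsOrderedAddMonoid E]
  [NormedSpace ℝ E] [PosSMulMono ℝ E]

/-- order continuous norm: monotone order bounded sequences converge in norm. -/
def OrderCont (E : Type*) [NormedAddCommGroup E] [Lattice E] : Prop :=
  ∀ x : ℕ → E, Monotone x ∨ Antitone x → BddAbove (range x) → BddBelow (range x) →
    ∃ l, Tendsto x atTop (𝓝 l)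

/-- positive functionals. -/
def IsPos {E : Type*} [NormedAddCommGroup E] [Lattice E] [NormedSpace ℝ E]
    (φ : StrongDual ℝ E) : Prop := ∀ x, 0 ≤ x → 0 ≤ φ x

lemma norming {ε : ℝ} (hε : 0 < ε) (y : E) (hy : 0 ≤ y) (h : ε ≤ ‖y‖) :
    ∃ φ : StrongDual ℝ E, IsPos φ ∧ φ y = 1 ∧ ∀ b, ‖b‖ < ε → φ b < 1 := by
  let C : Set E := {x | ∃ b, ‖b‖ < ε ∧ x ≤ b}
  have hc : Convex ℝ C := by
    rintro x ⟨b, hb, hx⟩ x' ⟨b', hb', hx'⟩ s t hs ht hst
    refine ⟨s • b + t • b', ?_, add_le_add (smul_le_smul_of_nonneg_left hx hs)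
      (smul_le_smul_of_nonneg_left hx' ht)⟩
    exact mem_ball_zero_iff.1 (convex_ball (0 : E) ε (mem_ball_zero_iff.2 hb)
      (mem_ball_zero_iff.2 hb') hs ht hst)
  have ho : IsOpen C := by
    rw [Metric.isOpen_iff]
    rintro x ⟨b, hb, hx⟩
    refine ⟨ε - ‖b‖, by linarith, fun x' hx' => ⟨b + (x' - x), ?_, ?_⟩⟩
    · rw [mem_ball_iff_norm] at hx'
      linarith [norm_add_le b (x' - x)]
    · calc x' = x + (x' - x) := by abel
        _ ≤ _ := add_le_add hx le_rfl
  have hn : y ∉ C := by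
    rintro ⟨b, hb, hx⟩
    have : ‖y‖ ≤ ‖b‖ := norm_le_norm_of_abs_le_abs (by
      rw [abs_of_nonneg hy]; exact hx.trans (le_abs_self b))
    linarith
  obtain ⟨f, hf⟩ := geometric_hahn_banach_open_point hc ho hn
  have h0 : 0 < f y := by simpa using hf 0 ⟨0, by simpa, le_rfl⟩
  refine ⟨(f y)⁻¹ • f, fun p hp => ?_, by simp [h0.ne'], fun b hb => ?_⟩
  · refine mul_nonneg (inv_pos.2 h0).le (not_lt.1 fun hneg' => ?_)
    have hneg : f p < 0 := hneg'
    have ht : 0 ≤ f y / (-f p) := div_nonneg h0.le (by linarith)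
    have := hf (-((f y / (-f p)) • p)) ⟨0, by simpa, neg_nonpos.2 (smul_nonneg ht hp)⟩
    rw [map_neg, map_smul, smul_eq_mul] at this
    have e : -(f y / (-f p) * f p) = f y := by field_simp [hneg.ne]
    linarith
  · show (f y)⁻¹ * f b < 1
    rw [inv_mul_lt_iff₀ h0, mul_one]
    exact hf b ⟨b, hb, le_rfl⟩

lemma IsPos.mono {φ : StrongDual ℝ E} (h : IsPos φ) {a b : E} (hab : a ≤ b) : φ a ≤ φ b := by
  have := h _ (sub_nonneg.2 hab)
  rw [map_sub] at this; linarith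

lemma step (hE : OrderCont E) (u : E) {ε : ℝ} (hε : 0 < ε) :
    ∃ φ : StrongDual ℝ E, IsPos φ ∧ ∃ δ > 0, ∀ y, 0 ≤ y → y ≤ u → φ y < δ → ‖y‖ < ε := by
  by_contra hcon
  push Not at hcon
  choose! Y hY0 hYu hYδ hYε using hcon
  choose! N hN1 hN2 hN3 using norming (E := E) hε
  let Φ : ℕ → StrongDual ℝ E := fun n =>
    Nat.rec 0 (fun n Φ => Φ + N (Y Φ (1 / 2 ^ (n + 1)))) n
  let y : ℕ → E := fun n => Y (Φ n) (1 / 2 ^ (n + 1))
  have hs : ∀ n, Φ (n + 1) = Φ n + N (y n) := fun n => rfl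
  have hd : ∀ n : ℕ, (1 / 2 ^ (n + 1) : ℝ) > 0 := fun n => by positivity
  have hΦ : ∀ n, IsPos (Φ n) := by
    intro n
    induction n with
    | zero => intro x _; exact le_rfl
    | succ n ih =>
      intro x hx
      exact add_nonneg (ih x hx) (hN1 _ (hY0 _ ih _ (hd n)) (hYε _ ih _ (hd n)) x hx)
  have y0 : ∀ n, 0 ≤ y n := fun n => hY0 _ (hΦ n) _ (hd n)
  have yu : ∀ n, y n ≤ u := fun n => hYu _ (hΦ n) _ (hd n)
  have yε : ∀ n, ε ≤ ‖y n‖ := fun n => hYε _ (hΦ n) _ (hd n)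
  have hNp : ∀ n, IsPos (N (y n)) := fun n => hN1 _ (y0 n) (yε n)
  have hle : ∀ n j x, 0 ≤ x → N (y n) x ≤ Φ (n + 1 + j) x := by
    intro n j x hx
    induction j with
    | zero => exact le_add_of_nonneg_left (hΦ n x hx)
    | succ j ih => exact ih.trans (le_add_of_nonneg_right (hNp _ x hx))
  have hsm : ∀ n j, N (y n) (y (n + 1 + j)) ≤ 1 / 2 ^ (j + 2) := fun n j =>
    (hle n j _ (y0 _)).trans ((hYδ _ (hΦ _) _ (hd _)).le.trans
      (one_div_le_one_div_of_le (by positivity) (pow_le_pow_right₀ (by norm_num) (by omega))))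
  let s : ℕ → ℕ → E := fun n => partialSups fun m => y (n + m)
  have ss : ∀ n m, s n (m + 1) = s n m ⊔ y (n + (m + 1)) := fun n m => partialSups_add_one _ m
  have s0 : ∀ n, s n 0 = y n := fun n => partialSups_zero _
  have smono : ∀ n, Monotone (s n) := fun n => (partialSups _).monotone
  have sl : ∀ n m, y n ≤ s n m := fun n m => s0 n ▸ smono n (Nat.zero_le m)
  have su : ∀ n m, s n m ≤ u := fun n m => partialSups_le _ _ _ fun j _ => yu _
  choose z hz using fun n => hE (s n) (Or.inl (smono n)) ⟨u, forall_mem_range.2 (su n)⟩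
    ⟨y n, forall_mem_range.2 (sl n)⟩
  have yz : ∀ n, y n ≤ z n := fun n => ge_of_tendsto' (hz n) (sl n)
  have za : Antitone z := antitone_nat_of_succ_le fun n => le_of_tendsto' (hz (n + 1)) fun m =>
    partialSups_le _ _ _ fun j _ => by
      refine le_trans ?_ ((smono n).ge_of_tendsto (hz n) (j + 1))
      rw [ss, show n + 1 + j = n + (j + 1) by omega]; exact le_sup_right
  have hb : ∀ n m, N (y n) (s (n + 1) m) ≤ 1 / 2 - 1 / 2 ^ (m + 2) := by
    intro n m
    induction m with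
    | zero => rw [s0]; have := hsm n 0; norm_num at this ⊢; linarith
    | succ m ih =>
      have h1 : s (n + 1) (m + 1) ≤ s (n + 1) m + y (n + 1 + (m + 1)) := by
        rw [ss]
        exact sup_le (le_add_of_nonneg_right (y0 (n + 1 + (m + 1))))
          (le_add_of_nonneg_left ((y0 (n + 1)).trans (sl (n + 1) m)))
      have h2 := (hNp n).mono h1
      rw [map_add] at h2
      have h3 := hsm n (m + 1)
      have e : (1 / 2 ^ (m + 2) : ℝ) = 2 * (1 / 2 ^ (m + 1 + 2)) := by field_simp; ring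
      linarith
  have hz2 : ∀ n, N (y n) (z (n + 1)) ≤ 1 / 2 := fun n =>
    le_of_tendsto' (((N (y n)).continuous.tendsto _).comp (hz (n + 1))) fun m =>
      (hb n m).trans (by linarith [hd (m + 1)])
  obtain ⟨l, hl⟩ := hE z (Or.inr za) ⟨z 0, forall_mem_range.2 fun n => za (Nat.zero_le n)⟩
    ⟨0, forall_mem_range.2 fun n => (y0 n).trans (yz n)⟩
  have ht : Tendsto (fun n => ‖(2 : ℝ) • (z n - z (n + 1))‖) atTop (𝓝 0) := by
    have := ((hl.sub (hl.comp (tendsto_add_atTop_nat 1))).const_smul (2 : ℝ)).norm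
    simpa using this
  obtain ⟨n, hn⟩ := (ht.eventually (gt_mem_nhds hε)).exists
  have h1 := hN3 _ (y0 n) (yε n) _ hn
  rw [map_smul, map_sub, smul_eq_mul] at h1
  have h2 := (hNp n).mono (yz n)
  rw [hN2 _ (y0 n) (yε n)] at h2
  linarith [hz2 n]

theorem result [CompleteSpace E] (hE : OrderCont E) {X : Type*} [MeasurableSpace X]
    (μ : Set X → E) (h0 : μ ∅ = 0)
    (hm : ∀ A B, MeasurableSet A → MeasurableSet B → A ⊆ B → μ A ≤ μ B) :
    ∃ φ : StrongDual ℝ E, IsPos φ ∧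
      ∀ ε > 0, ∃ δ > 0, ∀ A, MeasurableSet A → φ (μ A) < δ → ‖μ A‖ < ε := by
  choose φ hφ δ hδ h using fun k : ℕ => step hE (μ univ) (Nat.one_div_pos_of_nat (α := ℝ) (n := k))
  let c : ℕ → ℝ := fun k => (1 / 2) ^ k / (‖φ k‖ + 1)
  have hc : ∀ k, 0 < c k := fun k => by positivity
  have hs : Summable fun k => c k • φ k := by
    refine Summable.of_norm_bounded summable_geometric_two fun k => ?_
    rw [norm_smul, Real.norm_of_nonneg (hc k).le, div_mul_eq_mul_div, div_le_iff₀ (by positivity)]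
    gcongr; linarith
  have he : ∀ x, HasSum (fun k => c k * φ k x) ((∑' k, c k • φ k) x) := fun x =>
    (ContinuousLinearMap.apply ℝ ℝ x).hasSum hs.hasSum
  refine ⟨∑' k, c k • φ k, fun x hx => (he x).nonneg fun k => mul_nonneg (hc k).le (hφ k x hx),
    fun ε hε => ?_⟩
  obtain ⟨k, hk⟩ := exists_nat_one_div_lt hε
  refine ⟨c k * δ k, mul_pos (hc k) (hδ k), fun A hA hlt => ?_⟩
  have hA0 : 0 ≤ μ A := h0 ▸ hm _ _ MeasurableSet.empty hA (empty_subset _)
  refine (h k _ hA0 (hm _ _ hA MeasurableSet.univ (subset_univ _)) ?_).trans hk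
  have := le_hasSum (he (μ A)) k fun j _ => mul_nonneg (hc j).le (hφ j _ hA0)
  exact lt_of_mul_lt_mul_left (this.trans_lt hlt) (hc k).le

end Pool.Agent.Results.MP_e24518_an.Control
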